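import Mathlib
import Pool.Agent.H.MP_a891d2_an.Kan

set_option autoImplicit false
open MeasureTheory Set Filter Topology
open Pool.Agent.H.Flex

namespace Pool.Agent.H.Cat

noncomputable def α : ℝ := (√5 - 1) / 2

theorem α_sq : α ^ 2 + α = 1 := by
  have := Real.sq_sqrt (show (0 : ℝ) ≤ 5 by norm_num)
  rw [α]; nlinarith

theorem α_lo : 3 / 5 < α := by
  have : (11 / 5 : ℝ) < √5 := Real.lt_sqrt_of_sq_lt (by norm_num)
  rw [α]; linarith

theorem α_hi : α < 31 / 50 := by
  have : √5 < 56 / 25 := (Real.sqrt_lt' (by norm_num)).2 (by norm_num)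
  rw [α]; linarith

theorem α_irr : Irrational α := by
  have h : Irrational (√5) := by simpa using Nat.Prime.irrational_sqrt (p := 5) (by norm_num)
  have := (h.sub_natCast 1).div_natCast (m := 2) two_ne_zero
  simpa [α] using this

def A (x : ℝ × ℝ) : ℝ × ℝ := (2 * x.1 + x.2, x.1 + x.2)
def Ai (x : ℝ × ℝ) : ℝ × ℝ := (x.1 - x.2, 2 * x.2 - x.1)

theorem A_Ai (x : ℝ × ℝ) : A (Ai x) = x := by ext <;> simp [A, Ai] <;> ring
theorem Ai_A (x : ℝ × ℝ) : Ai (A x) = x := by ext <;> simp [A, Ai] <;> ring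

noncomputable def cat : T × T →+ T × T where
  toFun x := ((2 : ℕ) • x.1 + x.2, x.1 + x.2)
  map_zero' := by simp
  map_add' x y := by ext <;> simp <;> abel

theorem cat_π (x : ℝ × ℝ) : cat (π x) = π (A x) := by
  simp only [cat, π, A, AddMonoidHom.coe_mk, ZeroHom.coe_mk, AddCircle.coe_add]
  rw [← AddCircle.coe_nsmul]; simp

theorem π_surj : Function.Surjective π := fun p => ⟨(rep p.1, rep p.2), by simp [π, coe_rep]⟩

theorem cat_c : Continuous cat := by
  show Continuous fun x : T × T => ((2 : ℕ) • x.1 + x.2, x.1 + x.2)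
  fun_prop

theorem cat_surj : Function.Surjective cat := fun p => by
  obtain ⟨x, rfl⟩ := π_surj p
  exact ⟨π (Ai x), by rw [cat_π, A_Ai]⟩

instance : (volume : Measure (T × T)).IsAddHaarMeasure := Measure.prod.instIsAddHaarMeasure _ _

theorem cat_mp : MeasurePreserving cat volume volume :=
  cat.measurePreserving cat_c cat_surj rfl

theorem cπ : Continuous π :=
  ((AddCircle.continuous_mk' (1 : ℝ)).comp continuous_fst).prodMk
    ((AddCircle.continuous_mk' (1 : ℝ)).comp continuous_snd)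

theorem cat_erg : Ergodic cat volume := by
  refine ⟨cat_mp, ⟨fun s hs hi => ?_⟩⟩
  let τ : C((T × T) × (T × T), T × T) := ⟨fun z => z.1 + z.2, by fun_prop⟩
  have mp : ∀ g : T × T, MeasurePreserving (τ.curry g) volume volume := fun g =>
    measurePreserving_add_left volume g
  have hc : IsClosed {g : T × T | τ.curry g ⁻¹' s =ᵐ[volume] s} :=
    isClosed_setOfPred_preimage_ae_eq τ.curry.continuous mp _ hs.nullMeasurableSet
      (measure_ne_top _ _)
  have hadd : ∀ g h : T × T, τ.curry g ⁻¹' s =ᵐ[volume] s → τ.curry h ⁻¹' s =ᵐ[volume] s →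
      τ.curry (g + h) ⁻¹' s =ᵐ[volume] s := fun g h a b => by
    have : τ.curry (g + h) ⁻¹' s = τ.curry h ⁻¹' (τ.curry g ⁻¹' s) := by
      ext x; simp [τ, add_assoc]
    rw [this]
    exact ((mp h).quasiMeasurePreserving.preimage_ae_eq a).trans b
  have hs1 : ∀ t : ℝ, τ.curry (π (t, -(1 + α) * t)) ⁻¹' s =ᵐ[volume] s := by
    intro t
    let v : ℕ → T × T := fun n => π ((1 - α) ^ n * t, -(1 + α) * ((1 - α) ^ n * t))
    have hv : ∀ n, cat (v n) = v (n + 1) := fun n => by
      simp only [v, cat_π, A, pow_succ]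
      congr 2
      · ring
      · have := α_sq
        linear_combination ((1 - α) ^ n * t) * (-1) * this
    have hm : ∀ n, volume (symmDiff (τ.curry (v n) ⁻¹' s) (τ.curry 0 ⁻¹' s)) =
        volume (symmDiff (τ.curry (v 0) ⁻¹' s) (τ.curry 0 ⁻¹' s)) := by
      intro n
      induction n with
      | zero => rfl
      | succ n ih =>
        rw [← ih, ← cat_mp.measure_preimage
          (((mp _).measurable hs).symmDiff ((mp _).measurable hs)).nullMeasurableSet]
        congr 1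
        have h1 : ∀ x, cat x ∈ s ↔ x ∈ s := fun x => by rw [← mem_preimage, hi]
        ext x
        simp only [mem_preimage, mem_symmDiff, τ, ContinuousMap.curry_apply, ContinuousMap.coe_mk,
          zero_add, ← hv, ← map_add, h1]
    have h0 : Tendsto (fun n : ℕ => (1 - α) ^ n * t) atTop (𝓝 0) := by
      simpa using (tendsto_pow_atTop_nhds_zero_of_lt_one (r := 1 - α) (by linarith [α_hi])
        (by linarith [α_lo])).mul_const t
    have h1 : Tendsto v atTop (𝓝 0) := by
      have := (cπ.tendsto _).comp (h0.prodMk_nhds (h0.const_mul (-(1 + α))))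
      rw [mul_zero, show π (0, 0) = 0 by simp [π, Prod.mk_zero_zero]] at this
      exact this
    have h2 := tendsto_measure_symmDiff_preimage_nhds_zero ((τ.curry.continuous.tendsto 0).comp h1)
      (Eventually.of_forall fun n => mp _) (mp 0) hs.nullMeasurableSet (measure_ne_top _ _)
    simp only [Function.comp, hm, tendsto_const_nhds_iff] at h2
    have h3 := measure_symmDiff_eq_zero_iff.1 h2
    have h4 : τ.curry 0 ⁻¹' s = s := by ext x; simp [τ]
    rw [h4] at h3
    simpa [v] using h3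
  have hs2 : ∀ y : T, τ.curry (0, y) ⁻¹' s =ᵐ[volume] s := by
    have hd : DenseRange fun k : ℤ => k • ((-(1 + α) : ℝ) : T) :=
      AddCircle.denseRange_zsmul_coe_iff.2 (by simpa using (α_irr.natCast_add 1).neg)
    intro y
    refine hd.induction_on (p := fun y => τ.curry (0, y) ⁻¹' s =ᵐ[volume] s) y
      (hc.preimage (Continuous.prodMk_right (0 : T))) fun k => ?_
    have := hs1 k
    simp only [π] at this
    rw [show ((k : ℝ) : T) = 0 by simpa using coe_int 0 k] at this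
    rw [← AddCircle.coe_zsmul, zsmul_eq_mul, mul_comm]
    exact this
  haveI : BorelSpace (T × T) := Prod.borelSpace
  haveI : MeasurableNeg (T × T) := ⟨continuous_neg.measurable⟩
  haveI : MeasurableAdd₂ (T × T) := ⟨continuous_add.measurable⟩
  refine aeconst_of_forall_preimage_vadd_ae_eq (T × T) hs.nullMeasurableSet fun g => ?_
  have := hadd _ _ (hs1 (rep g.1)) (hs2 (g.2 - (-(1 + α) * rep g.1 : ℝ)))
  simp only [π, coe_rep, Prod.mk_add_mk, add_zero, add_sub_cancel] at this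
  exact this

/-! the skew product -/

noncomputable def c (t : ℝ) : ℝ := Real.cos (2 * Real.pi * t)
noncomputable def k (t : ℝ) : ℝ := ((1 + c t) / 2) ^ 2
noncomputable def a (x : ℝ × ℝ) : ℝ := -(2 / 5) + (7 / 5 + α) * (k x.1 * k x.2)
noncomputable def φ (y : ℝ) : ℝ := sn y / (2 * Real.pi * (1 + 15 * (1 - c y)))
noncomputable def φ' (y : ℝ) : ℝ := (1 - 16 * (1 - c y)) / (1 + 15 * (1 - c y)) ^ 2
noncomputable def ψ (y : ℝ) : ℝ := -(sn y ^ 3 / (16 * Real.pi))
noncomputable def ψ' (y : ℝ) : ℝ := -(3 / 8 * (1 - c y ^ 2) * c y)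

theorem c_le (t : ℝ) : c t ≤ 1 := Real.cos_le_one _
theorem c_ge (t : ℝ) : -1 ≤ c t := Real.neg_one_le_cos _
theorem sc (t : ℝ) : sn t ^ 2 = 1 - c t ^ 2 := Real.sin_sq _
theorem den (y : ℝ) : 0 < 1 + 15 * (1 - c y) := by linarith [c_le y]

theorem hc (y : ℝ) : HasDerivAt c (-(2 * Real.pi * sn y)) y :=
  ((hasDerivAt_id y).const_mul (2 * Real.pi)).cos.congr_deriv (by simp [sn]; ring)

theorem hφ (y : ℝ) : HasDerivAt φ (φ' y) y := by
  have h1 := den y
  have h2 := Real.pi_pos
  have := (hsn y).div ((((hc y).const_sub 1).const_mul 15).const_add 1 |>.const_mul (2 * Real.pi))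
    (by positivity)
  refine this.congr_deriv ?_
  have h3 := sc y
  simp only [φ', cs, ← c.eq_1]
  field_simp
  linear_combination (-15) * h3

theorem hψ (y : ℝ) : HasDerivAt ψ (ψ' y) y := by
  have h2 := Real.pi_pos
  have := (((hsn y).pow 3).div_const (16 * Real.pi)).neg
  refine this.congr_deriv ?_
  simp only [ψ', cs, ← c.eq_1, ← sc]
  field_simp
  norm_num
  ring

theorem c_sm : ContDiff ℝ (⊤ : ℕ∞) c := by unfold c; fun_prop
theorem sn_sm : ContDiff ℝ (⊤ : ℕ∞) sn := by unfold sn; fun_prop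
theorem a_sm : ContDiff ℝ (⊤ : ℕ∞) a := by have := c_sm; unfold a k; fun_prop
theorem φ_sm : ContDiff ℝ (⊤ : ℕ∞) φ := by
  have := c_sm
  exact sn_sm.div (by fun_prop) fun y => (mul_pos Real.two_pi_pos (den y)).ne'
theorem ψ_sm : ContDiff ℝ (⊤ : ℕ∞) ψ := by have := sn_sm; unfold ψ; fun_prop

theorem c_int (y : ℝ) (l : ℤ) : c (y + l) = c y := by
  rw [c, c, mul_add, mul_comm _ (l : ℝ), Real.cos_add_int_mul_two_pi]

theorem k_mem (t : ℝ) : 0 ≤ k t ∧ k t ≤ 1 :=
  ⟨sq_nonneg _, by have := c_le t; have := c_ge t; rw [k]; nlinarith⟩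

theorem a_mem (x : ℝ × ℝ) : -(2 / 5) ≤ a x ∧ a x ≤ 1 + α := by
  have h1 := k_mem x.1
  have h2 := k_mem x.2
  have h3 : 0 ≤ k x.1 * k x.2 := mul_nonneg h1.1 h2.1
  have h4 : k x.1 * k x.2 ≤ 1 := mul_le_one₀ h1.2 h2.1 h2.2
  have := α_lo
  rw [a]; constructor <;> nlinarith

noncomputable def D (z : (ℝ × ℝ) × ℝ) : ℝ := 1 + a z.1 * φ' z.2 + ψ' z.2

theorem D_ge (z : (ℝ × ℝ) × ℝ) : 9 / 20 ≤ D z := by
  have h1 := den z.2
  have h2 := c_le z.2
  have h3 := c_ge z.2
  have h4 : φ' z.2 ≤ 1 := by rw [φ', div_le_one (by positivity)]; nlinarith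
  have h5 : -(1 / 6) ≤ φ' z.2 := by
    rw [φ', le_div_iff₀ (by positivity)]; nlinarith [sq_nonneg (15 * (1 - c z.2) - 11 / 5)]
  have h6 : -(3 / 20) ≤ ψ' z.2 := by
    rw [ψ']
    nlinarith [mul_nonneg (show 0 ≤ c z.2 + 6 / 5 by linarith) (sq_nonneg (c z.2 - 3 / 5))]
  have h7 := a_mem z.1
  have := α_hi
  rw [D]
  rcases le_total 0 (a z.1) with h | h <;> nlinarith

theorem D_pos (z : (ℝ × ℝ) × ℝ) : 0 < D z := by linarith [D_ge z]

noncomputable def g (x : ℝ × ℝ) (y : ℝ) : ℝ := y + a x * φ y + ψ y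

theorem hg (x : ℝ × ℝ) (y : ℝ) : HasDerivAt (g x) (D (x, y)) y :=
  ((hasDerivAt_id y).add ((hφ y).const_mul (a x))).add (hψ y)

theorem g_mono (x : ℝ × ℝ) : StrictMono (g x) :=
  strictMono_of_deriv_pos fun y => by rw [(hg x y).deriv]; exact D_pos _

theorem a_int (x : ℝ × ℝ) (i j : ℤ) : a (x.1 + i, x.2 + j) = a x := by simp only [a, k, c_int]
theorem φ_int (y : ℝ) (l : ℤ) : φ (y + l) = φ y := by simp only [φ, c_int, sn_int]

theorem g_int (x : ℝ × ℝ) (y : ℝ) (i j l : ℤ) : g (x.1 + i, x.2 + j) (y + l) = g x y + l := by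
  simp only [g, a_int, φ_int, ψ, sn_int]; ring

theorem sn_z (l : ℤ) : sn l = 0 := by simpa [sn] using sn_int 0 l
theorem c_z (l : ℤ) : c l = 1 := by simpa [c] using c_int 0 l
theorem g_z (x : ℝ × ℝ) (l : ℤ) : g x l = l := by simp [g, φ, ψ, sn_z]

theorem g_surj (x : ℝ × ℝ) : Function.Surjective (g x) := by
  intro t
  have h : t ∈ Icc (g x (⌊t⌋ : ℤ)) (g x ((⌊t⌋ + 1 : ℤ))) := by
    rw [g_z, g_z]; push_cast
    exact ⟨Int.floor_le t, (Int.lt_floor_add_one t).le⟩
  obtain ⟨y, -, hy⟩ := intermediate_value_Icc (by push_cast; linarith)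
    (fun y _ => (hg x y).continuousAt.continuousWithinAt) h
  exact ⟨y, hy⟩

abbrev R3 := (ℝ × ℝ) × ℝ
abbrev T3 := (T × T) × T

def pr (z : R3) : T3 := (π z.1, (z.2 : T))
noncomputable def rp (p : T3) : R3 := ((rep p.1.1, rep p.1.2), rep p.2)

theorem pr_rp (p : T3) : pr (rp p) = p := by simp [pr, rp, π, coe_rep]

theorem rp_pr (z : R3) : ∃ i j l : ℤ, rp (pr z) = ((z.1.1 + i, z.1.2 + j), z.2 + l) := by
  obtain ⟨i, hi⟩ := rep_coe z.1.1
  obtain ⟨j, hj⟩ := rep_coe z.1.2
  obtain ⟨l, hl⟩ := rep_coe z.2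
  exact ⟨i, j, l, by simp [rp, pr, π, hi, hj, hl]⟩

theorem pr_q : IsOpenQuotientMap pr :=
  (QuotientAddGroup.isOpenQuotientMap_mk.prodMap QuotientAddGroup.isOpenQuotientMap_mk).prodMap
    QuotientAddGroup.isOpenQuotientMap_mk

theorem cont_of {E : Type*} [TopologicalSpace E] {h : T3 → E} {h' : R3 → E} (hc : Continuous h')
    (e : ∀ z, h (pr z) = h' z) : Continuous h :=
  pr_q.continuous_comp_iff.1 (by rwa [show h ∘ pr = h' from funext e])

noncomputable def F (z : R3) : R3 := (A z.1, g z.1 z.2)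

theorem F_sm : ContDiff ℝ (⊤ : ℕ∞) F := by
  have := a_sm; have := φ_sm; have := ψ_sm
  unfold F A g; fun_prop

theorem hF (z : R3) : ∃ P : R3 →L[ℝ] R3, HasFDerivAt F P z ∧
    ∀ v, P v = (A v.1, φ z.2 * fderiv ℝ a z.1 v.1 + D z * v.2) := by
  have h1 : HasFDerivAt (fun z : R3 => A z.1) _ z :=
    (((hasFDerivAt_fst (𝕜 := ℝ) (p := z)).fst.const_mul 2).add
      (hasFDerivAt_fst (𝕜 := ℝ) (p := z)).snd).prodMk
      ((hasFDerivAt_fst (𝕜 := ℝ) (p := z)).fst.add (hasFDerivAt_fst (𝕜 := ℝ) (p := z)).snd)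
  have h2 := ((hasFDerivAt_snd (𝕜 := ℝ) (p := z)).add
    (((a_sm.differentiable (by simp) z.1).hasFDerivAt.comp z (hasFDerivAt_fst (𝕜 := ℝ))).mul
      ((hφ z.2).comp_hasFDerivAt z (hasFDerivAt_snd (𝕜 := ℝ))))).add
    ((hψ z.2).comp_hasFDerivAt z (hasFDerivAt_snd (𝕜 := ℝ)))
  refine ⟨_, h1.prodMk h2, fun v => ?_⟩
  simp [A, D]
  ring

theorem dF (z v : R3) : fderiv ℝ F z v = (A v.1, φ z.2 * fderiv ℝ a z.1 v.1 + D z * v.2) := by
  obtain ⟨P, h1, h2⟩ := hF z
  rw [h1.fderiv, h2]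

theorem dFn (n : ℕ) (z v : R3) :
    fderiv ℝ F^[n + 1] z v = fderiv ℝ F (F^[n] z) (fderiv ℝ F^[n] z v) := by
  have h := F_sm.differentiable (by simp)
  rw [Function.iterate_succ', fderiv_comp z (h _) (h.iterate n z)]; rfl

noncomputable def f (p : T3) : T3 := pr (F (rp p))

theorem f_pr (z : R3) : f (pr z) = pr (F z) := by
  obtain ⟨i, j, l, h⟩ := rp_pr z
  simp only [f, h]
  simp only [F, pr, g_int, coe_int, ← cat_π]
  simp only [π, coe_int]

theorem fn_pr (n : ℕ) (z : R3) : f^[n] (pr z) = pr (F^[n] z) := by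
  induction n with
  | zero => rfl
  | succ n ih => rw [Function.iterate_succ_apply', Function.iterate_succ_apply', ih, f_pr]

theorem f_c : Continuous f := cont_of (pr_q.continuous.comp F_sm.continuous) f_pr

theorem coe_eq {s t : ℝ} (h : (s : T) = (t : T)) : ∃ l : ℤ, s = t + l := by
  have h1 : ((s - t : ℝ) : T) = 0 := by rw [AddCircle.coe_sub, h, sub_self]
  obtain ⟨l, hl⟩ := (AddCircle.coe_eq_zero_iff _).1 h1
  exact ⟨l, by simp at hl; linarith⟩

theorem f_bij : Function.Bijective f := by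
  constructor
  · intro p q h
    obtain ⟨z, rfl⟩ := pr_q.surjective p
    obtain ⟨w, rfl⟩ := pr_q.surjective q
    rw [f_pr, f_pr] at h
    obtain ⟨i, hi⟩ := coe_eq (congrArg (fun p : T3 => p.1.1) h)
    obtain ⟨j, hj⟩ := coe_eq (congrArg (fun p : T3 => p.1.2) h)
    obtain ⟨l, hl⟩ := coe_eq (congrArg (fun p : T3 => p.2) h)
    simp only [F, A] at hi hj hl
    have h1 : z.1 = (w.1.1 + (i - j : ℤ), w.1.2 + (2 * j - i : ℤ)) := by
      ext <;> push_cast <;> linarith
    rw [← g_int _ _ (i - j) (2 * j - i), ← h1] at hl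
    simp only [pr, π, h1, g_mono _ |>.injective hl, coe_int]
  · intro p
    obtain ⟨z, rfl⟩ := pr_q.surjective p
    obtain ⟨y, hy⟩ := g_surj (Ai z.1) z.2
    exact ⟨pr (Ai z.1, y), by rw [f_pr, F, A_Ai, hy]⟩

theorem dF_bij (z : R3) : Function.Bijective (fderiv ℝ F z) := by
  have h : Function.Injective (fderiv ℝ F z) := by
    rw [injective_iff_map_eq_zero]
    intro v hv
    rw [dF] at hv
    have h1 : v.1 = 0 := by
      rw [← Ai_A v.1, show A v.1 = 0 from congrArg Prod.fst hv]; simp [Ai]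
    have h2 := congrArg Prod.snd hv
    simp only [h1, map_zero, mul_zero, zero_add, Prod.snd_zero, mul_eq_zero, (D_pos z).ne',
      false_or] at h2
    exact Prod.ext h1 h2
  exact ⟨h, (LinearMap.injective_iff_surjective (f := (fderiv ℝ F z).toLinearMap)).1 h⟩

theorem da_int (x : ℝ × ℝ) (i j : ℤ) : fderiv ℝ a (x.1 + i, x.2 + j) = fderiv ℝ a x := by
  have : (fun x : ℝ × ℝ => a (x + ((i : ℝ), (j : ℝ)))) = a := funext fun x => a_int x i j
  conv_rhs => rw [← this, fderiv_comp_add_right]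
  rfl

noncomputable def b (v : ℝ × ℝ) (z : R3) : ℝ := φ z.2 * fderiv ℝ a z.1 v

theorem b_c (v : ℝ × ℝ) : Continuous (b v) := by
  have := φ_sm.continuous
  have := a_sm.continuous_fderiv (by simp)
  unfold b; fun_prop

theorem D_c : Continuous D := by
  have := c_sm.continuous
  have := a_sm.continuous
  have : Continuous φ' := Continuous.div (by fun_prop) (by fun_prop) fun y => (pow_pos (den y) 2).ne'
  unfold D ψ'; fun_prop

theorem b_rp (v : ℝ × ℝ) (z : R3) : b v (rp (pr z)) = b v z := by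
  obtain ⟨i, j, l, h⟩ := rp_pr z
  simp only [h, b, φ_int, da_int]

theorem D_rp (z : R3) : D (rp (pr z)) = D z := by
  obtain ⟨i, j, l, h⟩ := rp_pr z
  simp only [h, D, φ', ψ', c_int, a_int]

theorem ex_s : ∃ s : C(T3, ℝ), ∀ z,
    b (1, -(1 + α)) z + D z * s (pr z) = (1 - α) * s (pr (F z)) := by
  have c1 := cont_of (h := fun p => b (1, -(1 + α)) (rp p)) (b_c _) (b_rp _)
  have c2 := cont_of (h := fun p => D (rp p)) D_c D_rp
  have cf := f_c
  let Θ : C(T3, ℝ) → C(T3, ℝ) := fun s =>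
    ⟨fun p => ((1 - α) * s (f p) - b (1, -(1 + α)) (rp p)) / D (rp p),
      Continuous.div (by fun_prop) c2 fun p => (D_pos _).ne'⟩
  have hΘ : ContractingWith (8 / 9) Θ := by
    refine ⟨by norm_num, LipschitzWith.of_dist_le_mul fun s t => ?_⟩
    refine (ContinuousMap.dist_le (by positivity)).2 fun p => ?_
    have h1 := ContinuousMap.dist_apply_le_dist (f := s) (g := t) (f p)
    have h2 := D_ge (rp p)
    simp only [Θ, ContinuousMap.coe_mk, Real.dist_eq] at h1 ⊢
    rw [← sub_div, abs_div, abs_of_pos (D_pos _), div_le_iff₀ (D_pos _), sub_sub_sub_cancel_right,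
      ← mul_sub, abs_mul, abs_of_pos (by linarith [α_hi])]
    have := α_lo
    have := abs_nonneg (s (f p) - t (f p))
    push_cast
    nlinarith
  refine ⟨hΘ.fixedPoint Θ, fun z => ?_⟩
  have := congrArg (fun s : C(T3, ℝ) => s (pr z)) hΘ.fixedPoint_isFixedPt
  simp only [Θ, ContinuousMap.coe_mk, b_rp, D_rp, f_pr] at this
  rw [div_eq_iff (D_pos z).ne'] at this
  linarith

theorem A_s : A (1, -(1 + α)) = (1 - α) • (1, -(1 + α)) := by
  have := α_sq
  ext <;> simp [A] <;> nlinarith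

theorem A_u (t : ℝ) : A (t, α * t) = ((2 + α) * t, α * ((2 + α) * t)) := by
  have := α_sq
  ext
  · simp [A]; ring
  · simp only [A]; linear_combination (-t) * this

theorem stable {s : C(T3, ℝ)} (hs : ∀ z,
    b (1, -(1 + α)) z + D z * s (pr z) = (1 - α) * s (pr (F z))) (n : ℕ) (z : R3) :
    fderiv ℝ F^[n] z ((1, -(1 + α)), s (pr z)) = (1 - α) ^ n • ((1, -(1 + α)), s (pr (F^[n] z))) := by
  induction n with
  | zero => simp
  | succ n ih =>
    rw [dFn, ih, map_smul, dF, A_s, ← b, hs, Function.iterate_succ_apply', pow_succ, mul_smul]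
    rfl

theorem cu : ∃ L : ℝ, 1 ≤ L ∧ ∀ (n : ℕ) (z : R3) (t y : ℝ), ∃ y',
    fderiv ℝ F^[n] z ((t, α * t), y) = (((2 + α) ^ n * t, α * ((2 + α) ^ n * t)), y') ∧
      (9 / 20) ^ n * (|y| + L * |t|) ≤ |y'| + L * |(2 + α) ^ n * t| := by
  obtain ⟨K, hK⟩ := isCompact_univ.exists_bound_of_continuousOn
    (cont_of (h := fun p => b (1, α) (rp p)) (b_c _) (b_rp _)).continuousOn
  have hK' : ∀ z, |b (1, α) z| ≤ K := fun z => by rw [← b_rp]; exact hK _ trivial
  have K0 : 0 ≤ K := (abs_nonneg _).trans (hK' 0)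
  refine ⟨1 + K, by linarith, fun n z t y => ?_⟩
  induction n with
  | zero => exact ⟨y, by simp, by simp⟩
  | succ n ih =>
    obtain ⟨y', h1, h2⟩ := ih
    refine ⟨_, by rw [dFn, h1, dF, A_u, pow_succ', mul_assoc], ?_⟩
    rw [show (2 + α) ^ (n + 1) * t = (2 + α) * ((2 + α) ^ n * t) by ring, pow_succ', mul_assoc]
    generalize (2 + α) ^ n * t = u at h2 ⊢
    generalize (9 / 20 : ℝ) ^ n * (|y| + (1 + K) * |t|) = q at h2 ⊢
    have e : φ (F^[n] z).2 * fderiv ℝ a (F^[n] z).1 (u, α * u) = u * b (1, α) (F^[n] z) := by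
      rw [b, show (u, α * u) = u • ((1 : ℝ), α) by simp [mul_comm], map_smul, smul_eq_mul]; ring
    simp only [e]
    have a1 := D_ge (F^[n] z)
    have a2 := hK' (F^[n] z)
    have a3 := α_lo
    generalize D (F^[n] z) = d at a1
    generalize b (1, α) (F^[n] z) = β at a2
    have a4 : |d * y'| ≤ |u * β + d * y'| + |u * β| := by
      simpa using abs_sub (u * β + d * y') (u * β)
    rw [abs_mul, abs_mul, abs_of_pos (by linarith : 0 < d)] at a4
    rw [abs_mul (2 + α), abs_of_pos (by linarith : 0 < 2 + α)]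
    have a5 : |u| * |β| ≤ |u| * K := mul_le_mul_of_nonneg_left a2 (abs_nonneg _)
    have a6 := abs_nonneg u
    have a7 := abs_nonneg y'
    have a8 : 9 / 20 * |y'| ≤ d * |y'| := mul_le_mul_of_nonneg_right a1 a7
    nlinarith [mul_nonneg K0 a6, mul_nonneg (mul_nonneg K0 a6) (show 0 ≤ α by linarith),
      mul_nonneg a6 (show 0 ≤ α by linarith)]

theorem n_cu (t y : ℝ) : ‖(((t, α * t), y) : R3)‖ = max |t| |y| := by
  have : |α * t| ≤ |t| := by
    rw [abs_mul, abs_of_pos (by linarith [α_lo])]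
    exact mul_le_of_le_one_left (abs_nonneg _) (by linarith [α_hi])
  simp only [Prod.norm_def, Real.norm_eq_abs, max_eq_left this]

/-! trapping region -/

def U : Set T3 := {p | ‖p.2‖ < 1 / 4}

theorem U_open : IsOpen U := isOpen_lt (by fun_prop) continuous_const

theorem trap {p : T3} (h : ‖p.2‖ ≤ 1 / 4) : f p ∈ U := by
  obtain ⟨y, hy, h1⟩ := Kan.lift_ball (c := 0) (r := 1 / 4) (p := p.2) (by simpa using h)
  obtain ⟨x, hx⟩ := π_surj p.1
  have e : p = pr (x, y) := by simp [pr, hx, hy]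
  rw [e, f_pr]
  refine lt_of_le_of_lt QuotientAddGroup.norm_mk_le_norm ?_
  rw [sub_zero, abs_le] at h1
  have h2 := a_mem x
  have h3 := α_hi
  have h4 := Real.pi_pos
  have s1 : sn (1 / 4) = 1 := by
    rw [sn, show 2 * Real.pi * (1 / 4) = Real.pi / 2 by ring, Real.sin_pi_div_two]
  have s2 : c (1 / 4) = 0 := by
    rw [c, show 2 * Real.pi * (1 / 4) = Real.pi / 2 by ring, Real.cos_pi_div_two]
  have s3 : sn (-(1 / 4)) = -1 := by rw [sn, mul_neg, Real.sin_neg]; exact congrArg Neg.neg s1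
  have s4 : c (-(1 / 4)) = 0 := by rw [c, mul_neg, Real.cos_neg]; exact s2
  have h5 : 0 < (2 - a x) / (32 * Real.pi) := div_pos (by linarith) (by positivity)
  have g1 : g x (1 / 4) = 1 / 4 - (2 - a x) / (32 * Real.pi) := by
    simp only [g, φ, ψ, s1, s2]; field_simp; ring
  have g2 : g x (-(1 / 4)) = -(1 / 4) + (2 - a x) / (32 * Real.pi) := by
    simp only [g, φ, ψ, s3, s4]; field_simp; ring
  have m1 := (g_mono x).monotone h1.1
  have m2 := (g_mono x).monotone h1.2
  rw [Real.norm_eq_abs, abs_lt]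
  constructor <;> simp only [F] <;> linarith

theorem clU : closure U ⊆ {p | ‖p.2‖ ≤ 1 / 4} :=
  closure_minimal (fun p h => le_of_lt (show ‖p.2‖ < 1 / 4 from h)) (isClosed_le (by fun_prop) continuous_const)

theorem dissip (ν : Measure T3) [IsFiniteMeasure ν] (h1 : (volume : Measure T3) ≪ ν) :
    ¬ MeasurePreserving f ν ν := by
  intro h
  have h2 : ν (f ⁻¹' U \ U) = 0 := by
    have h0 : U ⊆ f ⁻¹' U := fun p hp => trap (le_of_lt (show ‖p.2‖ < 1 / 4 from hp))
    rw [measure_diff h0 U_open.measurableSet.nullMeasurableSet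
      (measure_ne_top _ _), h.measure_preimage U_open.measurableSet.nullMeasurableSet, tsub_self]
  have ho : IsOpen (f ⁻¹' U ∩ {p | 1 / 4 < ‖p.2‖}) :=
    (U_open.preimage f_c).inter (isOpen_lt continuous_const (by fun_prop))
  refine ho.measure_ne_zero volume ?_ (measure_mono_null (fun p hp => ?_) (h1 h2))
  · have hn : ∀ t ∈ Icc (0 : ℝ) (1 / 2), ‖(t : T)‖ = t := fun t ht => by
      rw [(AddCircle.norm_coe_eq_abs_iff 1 one_ne_zero).2 (by
        rw [abs_of_nonneg ht.1]; simpa using ht.2), abs_of_nonneg ht.1]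
    have hc : Continuous fun t : ℝ => f (pr (0, t)) := f_c.comp (pr_q.continuous.comp (by fun_prop))
    have h3 : ∀ᶠ t in 𝓝 (1 / 4 : ℝ), f (pr (0, t)) ∈ U := hc.continuousAt.eventually
      (U_open.mem_nhds (trap (hn _ ⟨by norm_num, by norm_num⟩).le))
    obtain ⟨t, a1, a2⟩ := ((h3.filter_mono (nhdsWithin_le_nhds (s := Ioi (1 / 4 : ℝ)))).and
      (Ioo_mem_nhdsGT (show (1 / 4 : ℝ) < 1 / 2 by norm_num))).exists
    exact ⟨pr (0, t), a1, a2.1.trans_eq (hn t ⟨by linarith [a2.1], a2.2.le⟩).symm⟩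
  · exact ⟨hp.1, fun h => lt_asymm (show 1 / 4 < ‖p.2‖ from hp.2) (show ‖p.2‖ < 1 / 4 from h)⟩

/-! the measure -/

theorem F_z (x : ℝ × ℝ) (l : ℤ) : F (x, l) = (A x, (l : ℝ)) := by rw [F, g_z]

theorem f_z (x : T × T) : f (x, 0) = (cat x, 0) := by
  obtain ⟨x, rfl⟩ := π_surj x
  have := f_pr (x, (0 : ℤ))
  rw [F_z] at this
  simpa [pr, cat_π] using this

noncomputable def μ : Measure T3 := (volume : Measure (T × T)).map fun x => (x, 0)

theorem erg : Ergodic f μ :=
  MeasurePreserving.ergodic_of_ergodic_semiconj (g := fun x : T × T => (x, (0 : T)))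
    ⟨measurable_prodMk_right, rfl⟩ cat_erg f_c.measurable fun x => (f_z x).symm

theorem int_k : ∫ t in (0 : ℝ)..1, k t = 3 / 8 := by
  have e : ∀ t, k t = 3 / 8 + (1 / 2 * Real.cos (2 * Real.pi * t) +
      1 / 8 * Real.cos (4 * Real.pi * t)) := fun t => by
    rw [k, c, show 4 * Real.pi * t = 2 * (2 * Real.pi * t) by ring, Real.cos_two_mul]; ring
  simp only [e]
  have h := Real.pi_pos
  rw [intervalIntegral.integral_add (by simp) ((by fun_prop : Continuous _).intervalIntegrable _ _),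
    intervalIntegral.integral_add ((by fun_prop : Continuous _).intervalIntegrable _ _)
      ((by fun_prop : Continuous _).intervalIntegrable _ _), intervalIntegral.integral_const_mul,
    intervalIntegral.integral_const_mul,
    intervalIntegral.integral_comp_mul_left (fun x => Real.cos x) (by positivity),
    intervalIntegral.integral_comp_mul_left (fun x => Real.cos x) (by positivity)]
  have : Real.sin (4 * Real.pi) = 0 := by simpa using Real.sin_nat_mul_pi 4
  simp [this]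

theorem vert (n : ℕ) (x : ℝ × ℝ) (l : ℤ) (v : ℝ × ℝ) (y : ℝ) : F^[n] (x, l) = (A^[n] x, (l : ℝ)) ∧
    fderiv ℝ F^[n] (x, l) (v, y) = (A^[n] v, (∏ j ∈ Finset.range n, (1 + a (A^[j] x))) * y) := by
  induction n with
  | zero => simp
  | succ n ih =>
    refine ⟨by rw [Function.iterate_succ_apply', Function.iterate_succ_apply', ih.1, F_z], ?_⟩
    rw [dFn, ih.1, ih.2, dF, Function.iterate_succ_apply', Finset.prod_range_succ]
    simp [φ, D, φ', ψ', sn_z, c_z]
    ring

theorem Au_n (n : ℕ) (t : ℝ) : A^[n] (t, α * t) = ((2 + α) ^ n * t, α * ((2 + α) ^ n * t)) := by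
  induction n with
  | zero => simp
  | succ n ih => rw [Function.iterate_succ_apply', ih, A_u, pow_succ', mul_assoc]

theorem lyap : ∃ a0 : ℝ, a0 < 0 ∧ ∀ᵐ p ∂μ, ∀ z, pr z = p →
    Tendsto (fun n : ℕ => (1 / (n : ℝ)) * Real.log ‖fderiv ℝ F^[n] z (0, 1)‖) atTop (𝓝 a0) ∧
    Tendsto (fun n : ℕ => (1 / (n : ℝ)) * Real.log ‖fderiv ℝ F^[n] z ((1, α), 0)‖) atTop
      (𝓝 (Real.log (2 + α))) := by
  let a' : T × T → ℝ := fun x => a (rep x.1, rep x.2)
  have e : ∀ x, a' (π x) = a x := fun x => by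
    obtain ⟨i, hi⟩ := rep_coe x.1
    obtain ⟨j, hj⟩ := rep_coe x.2
    simp only [a', π, hi, hj, a_int]
  have m : Measurable a' := a_sm.continuous.measurable.comp
    ((rep_meas.comp measurable_fst).prodMk (rep_meas.comp measurable_snd))
  have ab : ∀ x, -(2 / 5) ≤ a' x ∧ a' x ≤ 2 := fun x =>
    ⟨(a_mem _).1, (a_mem _).2.trans (by linarith [α_hi])⟩
  have ab' : ∀ x, |a' x| ≤ 2 := fun x => abs_le.2 ⟨by linarith [(ab x).1], (ab x).2⟩
  have i0 : Integrable a' := int_bdd m ab'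
  have i : Integrable fun x => Real.log (1 + a' x) := by
    refine int_bdd (m.const_add 1).log (C := 2) fun x => abs_le.2 ⟨?_, ?_⟩
    · have h1 : 0 < 1 + a' x := by linarith [(ab x).1]
      have h2 := Real.one_sub_inv_le_log_of_pos h1
      have h3 : (1 + a' x)⁻¹ ≤ 3 := by rw [inv_le_comm₀ h1 (by norm_num)]; linarith [(ab x).1]
      linarith
    · linarith [Real.log_le_sub_one_of_pos (show 0 < 1 + a' x by linarith [(ab x).1]), (ab x).2]
  have hi : ∫ x, a' x < 0 := by
    rw [intTT m ab']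
    simp only [e, a]
    have ck : Continuous k := by have := c_sm.continuous; unfold k; fun_prop
    have h1 : ∀ x : ℝ, ∫ y in (0 : ℝ)..1, (-(2 / 5) + (7 / 5 + α) * (k x * k y)) =
        -(2 / 5) + (7 / 5 + α) * (3 / 8) * k x := fun x => by
      rw [intervalIntegral.integral_add (by simp)
        ((by fun_prop : Continuous _).intervalIntegrable _ _), intervalIntegral.integral_const_mul,
        intervalIntegral.integral_const_mul, int_k]
      simp; ring
    simp only [h1]
    rw [intervalIntegral.integral_add (by simp)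
        ((by fun_prop : Continuous _).intervalIntegrable _ _), intervalIntegral.integral_const_mul,
      int_k]
    simp
    linarith [α_hi]
  refine ⟨∫ x, Real.log (1 + a' x), lt_of_le_of_lt (integral_mono i i0 fun x => ?_) hi, ?_⟩
  · linarith [Real.log_le_sub_one_of_pos (show 0 < 1 + a' x by linarith [(ab x).1])]
  refine (measurableEmbedding_prod_mk_right (0 : T)).ae_map_iff.2 ?_
  filter_upwards [birk cat_erg i] with x hx z hz
  have h1 : π z.1 = x := congrArg Prod.fst hz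
  obtain ⟨l, hl⟩ := coe_eq (s := z.2) (t := 0) (congrArg Prod.snd hz)
  have h3 : z = (z.1, (l : ℝ)) := by ext <;> simp [hl]
  have h4 : ∀ j, cat^[j] x = π (A^[j] z.1) := fun j => by
    induction j with
    | zero => exact h1.symm
    | succ j ih => rw [Function.iterate_succ_apply', Function.iterate_succ_apply', ih, cat_π]
  have h5 : ∀ j, A^[j] 0 = 0 := fun j => Function.iterate_fixed (by simp [A]) j
  have h6 : ∀ x, 0 < 1 + a x := fun x => by linarith [(a_mem x).1]
  rw [h3]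
  refine ⟨hx.congr fun n => ?_, tendsto_const_nhds.congr' ?_⟩
  · rw [(vert n _ l 0 1).2, h5, mul_one]
    have h7 : ∀ r : ℝ, max 0 |r| = |r| := fun r => max_eq_right (abs_nonneg r)
    simp only [h4, e, Prod.norm_def, norm_zero, Real.norm_eq_abs, h7,
      Real.log_abs, Real.log_prod fun j _ => (h6 _).ne']
  · filter_upwards [eventually_gt_atTop 0] with n hn
    have : (n : ℝ) ≠ 0 := by positivity
    have h7 := Au_n n 1
    rw [mul_one] at h7
    rw [(vert n _ l _ 0).2, h7, n_cu, mul_zero, abs_zero, max_eq_left (abs_nonneg _), Real.log_abs,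
      mul_one, Real.log_pow]
    field_simp

noncomputable def γ (s t : ℝ) : R3 := ((t, s + α * t), 0)

theorem γ_c : Continuous fun w : ℝ × ℝ => pr (γ w.1 w.2) :=
  pr_q.continuous.comp (by unfold γ; fun_prop)

theorem mγ (s : ℝ) : Measurable fun t => pr (γ s t) := γ_c.measurable.comp measurable_prodMk_left

theorem μ_eq : (Kan.L.prod Kan.L).map (fun w : ℝ × ℝ => pr (γ w.1 w.2)) = μ := by
  have h0 : MeasurePreserving (fun t : ℝ => (t : T)) Kan.L volume := by
    have := UnitAddCircle.measurePreserving_mk 0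
    rwa [zero_add, ← restrict_Ico_eq_restrict_Ioc] at this
  have m1 : Measurable fun x : T => ((α * rep x : ℝ) : T) := meas_coe.comp (rep_meas.const_mul α)
  have h1 : MeasurePreserving (fun x : T × T => (x.1, x.2 + ((α * rep x.1 : ℝ) : T)))
      volume volume :=
    (MeasurePreserving.id volume).skew_product (g := fun x y => y + ((α * rep x : ℝ) : T))
      (measurable_snd.add (m1.comp measurable_fst))
      (Eventually.of_forall fun x => map_add_right_eq_self _ _)
  have h2 := (h1.comp (h0.prod h0)).comp (Measure.measurePreserving_swap (μ := Kan.L) (ν := Kan.L))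
  rw [μ, ← h2.map_eq, Measure.map_map measurable_prodMk_right h2.measurable]
  refine Measure.map_congr ?_
  filter_upwards [Measure.quasiMeasurePreserving_snd.ae (ae_restrict_mem measurableSet_Ico)]
    with w hw
  simp [pr, γ, π, rep_id hw]

noncomputable def ζ (p : T3) : ℝ := rep (p.1.2 - ((α * rep p.1.1 : ℝ) : T))

theorem ζ_meas : Measurable ζ :=
  rep_meas.comp ((measurable_snd.comp measurable_fst).sub
    (meas_coe.comp ((rep_meas.comp (measurable_fst.comp measurable_fst)).const_mul α)))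

theorem ζ_γ {s t : ℝ} (hs : s ∈ Ico (0 : ℝ) 1) (ht : t ∈ Ico (0 : ℝ) 1) : ζ (pr (γ s t)) = s := by
  simp [ζ, pr, γ, π, rep_id ht, rep_id hs]

noncomputable def κ : ProbabilityTheory.Kernel ℝ T3 where
  toFun s := Kan.L.map fun t => pr (γ s t)
  measurable' := Measure.measurable_of_measurable_coe _ fun A hA => by
    simp only [Measure.map_apply (mγ _) hA]
    exact measurable_measure_prodMk_left (γ_c.measurable hA)

instance : ProbabilityTheory.IsMarkovKernel κ :=
  ⟨fun s => Measure.isProbabilityMeasure_map (mγ s).aemeasurable⟩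

theorem μ_ζ : μ.map ζ = Kan.L := by
  rw [← μ_eq, Measure.map_map ζ_meas γ_c.measurable]
  conv_rhs => rw [← (measurePreserving_fst (μ := Kan.L) (ν := Kan.L)).map_eq]
  refine Measure.map_congr ?_
  filter_upwards [Measure.quasiMeasurePreserving_fst.ae (ae_restrict_mem measurableSet_Ico),
    Measure.quasiMeasurePreserving_snd.ae (ae_restrict_mem measurableSet_Ico)] with w h1 h2
  exact ζ_γ h1 h2

theorem μ_bind : μ = (μ.map ζ).bind κ := by
  ext A hA
  rw [Measure.bind_apply hA κ.aemeasurable, μ_ζ, ← μ_eq, Measure.map_apply γ_c.measurable hA,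
    Measure.prod_apply (γ_c.measurable hA)]
  congr 1
  ext s
  exact (Measure.map_apply (μ := Kan.L) (mγ s) hA).symm

noncomputable def Γ (s t : ℝ) (n : ℕ) : T3 :=
  pr (Ai^[n] (0, s) + ((1 - α) ^ n * t, α * ((1 - α) ^ n * t)), 0)

theorem Γ_orb (s t : ℝ) (n : ℕ) : f (Γ s t (n + 1)) = Γ s t n := by
  have h := F_z (Ai^[n + 1] (0, s) + ((1 - α) ^ (n + 1) * t, α * ((1 - α) ^ (n + 1) * t))) 0
  rw [Int.cast_zero] at h
  have h1 : ∀ x y, A (x + y) = A x + A y := fun x y => by ext <;> simp [A] <;> ring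
  have h2 : (2 + α) * ((1 - α) ^ (n + 1) * t) = (1 - α) ^ n * t := by
    rw [pow_succ]; linear_combination (-((1 - α) ^ n * t)) * α_sq
  rw [Γ, f_pr, h, h1, A_u, h2, Function.iterate_succ_apply', A_Ai, Γ]

theorem Γ_dist (s t t' : ℝ) (n : ℕ) : dist (Γ s t n) (Γ s t' n) ≤ |t - t'| * (1 - α) ^ n := by
  have h0 : 0 < 1 - α := by linarith [α_hi]
  have h1 : |(1 - α) ^ n * (t - t')| = |t - t'| * (1 - α) ^ n := by
    rw [abs_mul, abs_of_pos (by positivity), mul_comm]
  refine max_le (max_le ((Kan.dist_coe _ _).trans ?_) ((Kan.dist_coe _ _).trans ?_))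
    (by simp [Γ, pr]; positivity)
  · rw [← h1]; apply le_of_eq; congr 1; simp; ring
  · rw [← h1]
    refine le_trans (le_of_eq (b := |α * ((1 - α) ^ n * (t - t'))|) (by congr 1; simp; ring)) ?_
    rw [abs_mul α, abs_of_pos (by linarith [α_lo])]
    exact mul_le_of_le_one_left (abs_nonneg _) (by linarith)

end Pool.Agent.H.Cat
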